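import Pool.Agent.NGP.Stmts
import Pool.Agent.Helper59_Vir.Two

/-! # Mini squad NGP, row ZNN (helper63) -/

set_option autoImplicit false

open scoped InnerProductSpace Topology ContDiff Manifold
open MeasureTheory Filter Set

noncomputable section

namespace Pool.Agent.NGP.H63

open Pool.Agent.Helper42_Paneitz Pool.Agent.Helper82_Vir Pool.Agent.Helper59_Vir

theorem znn : ZnnStmt := by
  intro q c Q hq hc1 hc2 hpos hne hQ hzon hle
  -- the direction
  obtain ⟨p, hp, hpx⟩ : ∃ p : E5, ‖p‖ = 1 ∧ ∀ x : E5, ⟪p, x⟫_ℝ = x 4 := by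
    refine ⟨EuclideanSpace.single (4 : Fin 5) (1 : ℝ), ?_, fun x => ?_⟩
    · rw [EuclideanSpace.norm_single, norm_one]
    · rw [EuclideanSpace.inner_single_left]
      simp
  have h4 : ⟪p, p⟫_ℝ = 1 := by rw [real_inner_self_eq_norm_sq, hp]; norm_num
  -- the sign of the derivative
  have hqc : q c ≤ 0 := by
    obtain ⟨x, hx⟩ := exists_height hp (t := c) ⟨hc1.le, hc2.le⟩
    rw [hpx] at hx
    have h1 := hzon x hx.ge
    have h2 := hle x hx.le
    rw [h1, hx] at h2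
    exact h2
  have hq1 : 0 < q 1 := hpos 1 hc2 le_rfl
  have hdiff : Differentiable ℝ q := hq.differentiable (by simp)
  have hdcont : Continuous (deriv q) := hq.continuous_deriv (by simp)
  obtain ⟨ξ, hξ, hξ1⟩ : ∃ ξ ∈ Ioo c 1, deriv q ξ = (q 1 - q c) / (1 - c) :=
    exists_deriv_eq_slope q hc2 hdiff.continuous.continuousOn hdiff.differentiableOn
  have hξ0 : 0 < deriv q ξ := by
    rw [hξ1]
    exact div_pos (by linarith) (by linarith)
  have hq' : ∀ s : ℝ, c < s → s < 1 → 0 < deriv q s := by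
    intro s hs hs1
    by_contra hcon
    push Not at hcon
    have hlt : deriv q s < 0 := lt_of_le_of_ne hcon (hne s hs hs1)
    have hsub : uIcc s ξ ⊆ Ioo c 1 := by
      intro y hy
      rw [mem_uIcc] at hy
      rcases hy with hy | hy
      · exact ⟨lt_of_lt_of_le hs hy.1, lt_of_le_of_lt hy.2 hξ.2⟩
      · exact ⟨lt_of_lt_of_le hξ.1 hy.1, lt_of_le_of_lt hy.2 hs1⟩
    have hivt := intermediate_value_uIcc (a := s) (b := ξ) (f := deriv q) hdcont.continuousOn
    have h0 : (0 : ℝ) ∈ uIcc (deriv q s) (deriv q ξ) := by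
      rw [mem_uIcc]
      exact Or.inl ⟨hlt.le, hξ0.le⟩
    obtain ⟨y, hy, hy0⟩ := hivt h0
    have := hsub hy
    exact hne y this.1 this.2 hy0
  -- the derivative of `Q` in the direction of the conformal field
  have hSf : Sm (fun x : S4 => q ⟪p, (x : E5)⟫_ℝ) := sm_comp (sm_inner p) hq
  have hdd : ∀ x : S4, dd (fun x : S4 => q ⟪p, (x : E5)⟫_ℝ) x (cf p 0 x) =
      deriv q ⟪p, (x : E5)⟫_ℝ * (1 - ⟪p, (x : E5)⟫_ℝ ^ 2) := by
    intro x
    rw [dd_comp (sm_inner p) hq, dd_inner, cf_tangent p (A := 0) (by simp), inner_cf, h4]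
    ring
  have hloc : ∀ x : S4, c < (x : E5) 4 → dd Q x (cf p 0 x) =
      deriv q ((x : E5) 4) * (1 - ((x : E5) 4) ^ 2) := by
    intro x hx
    have h1 : radialExt Q =ᶠ[𝓝 (x : E5)] radialExt (fun x : S4 => q ⟪p, (x : E5)⟫_ℝ) := by
      have hx0 := S4_ne_zero x
      have hcont : ContinuousAt (fun z : E5 => ‖z‖⁻¹ * ⟪p, z⟫_ℝ) (x : E5) := by
        refine ContinuousAt.mul ?_ ?_
        · exact (continuous_norm.continuousAt).inv₀ (norm_ne_zero_iff.2 hx0)
        · exact (continuous_const.inner continuous_id).continuousAt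
      have hval : ‖(x : E5)‖⁻¹ * ⟪p, (x : E5)⟫_ℝ = (x : E5) 4 := by
        rw [S4_norm, inv_one, one_mul, hpx]
      have hev : ∀ᶠ z in 𝓝 (x : E5), c < ‖z‖⁻¹ * ⟪p, z⟫_ℝ := by
        apply hcont.eventually
        apply lt_mem_nhds
        show c < ‖(x : E5)‖⁻¹ * ⟪p, (x : E5)⟫_ℝ
        rw [hval]
        exact hx
      filter_upwards [eventually_ne_nhds hx0, hev] with z hz hz2
      rw [radialExt_apply _ hz, radialExt_apply _ hz]
      have h2 : ⟪p, ‖z‖⁻¹ • z⟫_ℝ = (‖z‖⁻¹ • z) 4 := hpx _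
      have h3 : ⟪p, ‖z‖⁻¹ • z⟫_ℝ = ‖z‖⁻¹ * ⟪p, z⟫_ℝ := inner_smul_right _ _ _
      have h5 : c ≤ (‖z‖⁻¹ • z) 4 := by
        rw [← h2, h3]
        exact hz2.le
      have h6 := hzon ⟨‖z‖⁻¹ • z, normalize_mem hz⟩ h5
      rw [h6]
      show q ((‖z‖⁻¹ • z) 4) = q ⟪p, ‖z‖⁻¹ • z⟫_ℝ
      rw [h2]
    have h2 : dd Q x (cf p 0 x) = dd (fun x : S4 => q ⟪p, (x : E5)⟫_ℝ) x (cf p 0 x) := by
      unfold dd
      rw [h1.fderiv_eq]
    rw [h2, hdd, hpx]
  have hup : ∀ x : S4, 0 < Q x → c < (x : E5) 4 := by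
    intro x hx
    by_contra hcon
    exact absurd (hle x (not_lt.1 hcon)) (not_le.2 hx)
  have hdn : ∀ x : S4, Q x < 0 → (x : E5) 4 ≤ c := by
    intro x hx
    by_contra hcon
    push Not at hcon
    have h1 := hzon x hcon.le
    have h2 : (x : E5) 4 ≤ 1 := by
      have := (height_mem hp x).2
      rwa [hpx] at this
    have h3 := hpos _ hcon h2
    rw [h1] at hx
    linarith
  obtain ⟨x₁, hx₁⟩ := exists_height hp (t := (c + 1) / 2) ⟨by linarith, by linarith⟩
  rw [hpx] at hx₁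
  refine two_field hQ p 0 (A := 0) (B := 0) (by simp) (by simp) (fun x hx => ?_)
    (fun x _ => ?_) (fun x y hx hy => ?_) (Or.inl ⟨x₁, ?_, ?_⟩)
  · have h1 := hup x hx
    rw [hloc x h1]
    have h2 : (x : E5) 4 ≤ 1 := by
      have := (height_mem hp x).2
      rwa [hpx] at this
    rcases eq_or_lt_of_le h2 with h3 | h3
    · rw [h3]
      norm_num
    · exact mul_nonneg (hq' _ h1 h3).le (by nlinarith)
  · rw [cf_zero_zero, dd_zero]
  · have h1 := hup x hx
    have h2 := hdn y hy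
    simp only [sub_zero, inner_sub_right, sub_self, _root_.zero_apply, inner_zero_left]
    rw [hpx, hpx]
    linarith
  · rw [hzon x₁ (by rw [hx₁]; linarith), hx₁]
    exact hpos _ (by linarith) (by linarith)
  · rw [hloc x₁ (by rw [hx₁]; linarith), hx₁]
    exact mul_pos (hq' _ (by linarith) (by linarith)) (by nlinarith)

end Pool.Agent.NGP.H63
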